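import Pool.Agent.Lib.MP_5b6025_nt.Weyl

/-!
The Kusmin-Landau inequality and the second difference test.
-/

open Finset

namespace Pool.Agent.Lib.MP_5b6025_nt

/-- half of the cotangent of `π t` -/
noncomputable def hcot (t : ℝ) : ℝ := Real.cos (Real.pi * t) / (2 * Real.sin (Real.pi * t))

/-- `1 / (1 - e(t))` -/
noncomputable def WW (t : ℝ) : ℂ := 1 / 2 + Complex.I * (hcot t : ℂ)

lemma sin_pi_pos {t : ℝ} (h0 : 0 < t) (h1 : t < 1) : 0 < Real.sin (Real.pi * t) := by
  apply Real.sin_pos_of_pos_of_lt_pi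
  · positivity
  · nlinarith [Real.pi_pos]

lemma one_sub_ee_mul_WW {t : ℝ} (h0 : 0 < t) (h1 : t < 1) : (1 - ee t) * WW t = 1 := by
  have hs := (sin_pi_pos h0 h1).ne'
  have e1 : ee t = ((1 - 2 * Real.sin (Real.pi * t) ^ 2 : ℝ) : ℂ)
      + ((2 * Real.sin (Real.pi * t) * Real.cos (Real.pi * t) : ℝ) : ℂ) * Complex.I := by
    unfold ee
    rw [mul_comm Complex.I, Complex.exp_mul_I, ← Complex.ofReal_cos, ← Complex.ofReal_sin]
    have h2 : 2 * Real.pi * t = 2 * (Real.pi * t) := by ring
    rw [h2, Real.cos_two_mul, Real.sin_two_mul]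
    have := Real.sin_sq_add_cos_sq (Real.pi * t)
    have e2 : 2 * Real.cos (Real.pi * t) ^ 2 - 1 = 1 - 2 * Real.sin (Real.pi * t) ^ 2 := by
      linarith
    rw [e2]
  rw [e1]
  unfold WW hcot
  have hs' : (Real.sin (Real.pi * t) : ℂ) ≠ 0 := by exact_mod_cast hs
  have h3 : (Real.sin (Real.pi * t) : ℂ) ^ 2 + (Real.cos (Real.pi * t) : ℂ) ^ 2 = 1 := by
    exact_mod_cast Real.sin_sq_add_cos_sq (Real.pi * t)
  push_cast at hs' h3 ⊢
  field_simp
  ring_nf
  rw [Complex.I_sq]
  linear_combination (2 * Complex.sin (Real.pi * t)) * h3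

lemma hcot_sub {s t : ℝ} (h0 : 0 < s) (hst : s ≤ t) (h1 : t < 1) : 0 ≤ hcot s - hcot t := by
  have hs := sin_pi_pos h0 (lt_of_le_of_lt hst h1)
  have ht := sin_pi_pos (lt_of_lt_of_le h0 hst) h1
  have e : hcot s - hcot t = Real.sin (Real.pi * (t - s))
      / (2 * Real.sin (Real.pi * s) * Real.sin (Real.pi * t)) := by
    unfold hcot
    have h2 : Real.pi * (t - s) = Real.pi * t - Real.pi * s := by ring
    rw [h2, Real.sin_sub]
    field_simp
  rw [e]
  apply div_nonneg _ (by positivity)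
  apply Real.sin_nonneg_of_nonneg_of_le_pi
  · have := Real.pi_pos
    nlinarith
  · have := Real.pi_pos
    nlinarith

lemma norm_WW_sub {s t : ℝ} (h0 : 0 < s) (hst : s ≤ t) (h1 : t < 1) :
    ‖WW t - WW s‖ = hcot s - hcot t := by
  have e : WW t - WW s = Complex.I * ((hcot t - hcot s : ℝ) : ℂ) := by
    unfold WW; push_cast; ring
  rw [e, norm_mul, Complex.norm_I, one_mul, Complex.norm_real, Real.norm_eq_abs, abs_sub_comm,
    abs_of_nonneg (hcot_sub h0 hst h1)]

lemma abs_hcot_le (t : ℝ) : |hcot t| ≤ ‖WW t‖ := by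
  have : (WW t).im = hcot t := by
    unfold WW
    simp
  rw [← this]
  exact Complex.abs_im_le_norm _

lemma norm_WW_le {t Δ : ℝ} (hΔ : 0 < Δ) (h0 : Δ ≤ t) (h1 : t ≤ 1 - Δ) : ‖WW t‖ ≤ 1 / (4 * Δ) := by
  have hp : 4 * Δ ≤ ‖1 - ee t‖ := by
    rw [norm_sub_rev]
    rcases le_total t (1 / 2) with h | h
    · have h3 := le_norm_ee_sub_one (t := t) (by rw [abs_of_nonneg (by linarith)]; exact h)
      rw [abs_of_nonneg (by linarith)] at h3
      linarith
    · have h3 := le_norm_ee_sub_one (t := t - 1) (by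
        rw [abs_of_nonpos (by linarith)]; linarith)
      have h4 : ee (t - 1) = ee t := by
        have := ee_add_int t (-1)
        push_cast at this
        rw [← this]; rfl
      rw [h4, abs_of_nonpos (by linarith)] at h3
      linarith
  have h2 := one_sub_ee_mul_WW (t := t) (by linarith) (by linarith)
  have h3 : ‖1 - ee t‖ * ‖WW t‖ = 1 := by
    rw [← norm_mul, h2, norm_one]
  rw [le_div_iff₀ (by positivity)]
  calc ‖WW t‖ * (4 * Δ) ≤ ‖WW t‖ * ‖1 - ee t‖ := mul_le_mul_of_nonneg_left hp (norm_nonneg _)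
    _ = 1 := by rw [mul_comm]; exact h3

/-- the Kusmin-Landau inequality -/
theorem kusmin_landau {f : ℕ → ℝ} {u v : ℕ} (huv : u ≤ v) {Δ : ℝ} (hΔ : 0 < Δ) (m : ℤ)
    (hg : ∀ n, u ≤ n → n ≤ v → m + Δ ≤ f (n + 1) - f n ∧ f (n + 1) - f n ≤ m + 1 - Δ)
    (hmono : ∀ n, u ≤ n → n < v → f (n + 1) - f n ≤ f (n + 2) - f (n + 1)) :
    ‖∑ n ∈ Icc u v, ee (f n)‖ ≤ 1 / Δ := by
  set G : ℕ → ℝ := fun n => f (n + 1) - f n - m with hG
  have hG1 : ∀ n, u ≤ n → n ≤ v → Δ ≤ G n ∧ G n ≤ 1 - Δ := fun n h1 h2 => by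
    obtain ⟨h3, h4⟩ := hg n h1 h2
    simp only [hG]
    constructor <;> linarith
  have hee : ∀ n, ee (f (n + 1)) = ee (f n) * ee (G n) := fun n => by
    rw [← ee_add]
    have : f (n + 1) = f n + G n + (m : ℤ) := by simp only [hG]; ring
    rw [this, ee_add_int]
  have hE : ∀ n, u ≤ n → n ≤ v → ee (f n) = (ee (f n) - ee (f (n + 1))) * WW (G n) := by
    intro n h1 h2
    obtain ⟨h3, h4⟩ := hG1 n h1 h2
    rw [hee n]
    have := one_sub_ee_mul_WW (t := G n) (by linarith) (by linarith)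
    calc ee (f n) = ee (f n) * ((1 - ee (G n)) * WW (G n)) := by rw [this, mul_one]
      _ = _ := by ring
  have key : ∀ w, u ≤ w → w ≤ v → ‖∑ n ∈ Icc u w, ee (f n) + ee (f (w + 1)) * WW (G w)
      - ee (f u) * WW (G u)‖ ≤ hcot (G u) - hcot (G w) := by
    intro w huw
    induction w, huw using Nat.le_induction with
    | base =>
      intro _
      rw [Icc_self, Finset.sum_singleton]
      have h1 := hE u le_rfl huv
      have : ee (f u) + ee (f (u + 1)) * WW (G u) - ee (f u) * WW (G u) = 0 := by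
        nth_rewrite 1 [h1]
        ring
      rw [this, norm_zero, sub_self]
    | succ w huw ih =>
      intro hwv
      have ih' := ih (by omega)
      have h1 := hE (w + 1) (by omega) hwv
      have h2 : ∑ n ∈ Icc u (w + 1), ee (f n) = ∑ n ∈ Icc u w, ee (f n) + ee (f (w + 1)) := by
        rw [← Finset.insert_Icc_right_eq_Icc_add_one (by omega), Finset.sum_insert]
        · ring
        · simp
      have h3 : ∑ n ∈ Icc u (w + 1), ee (f n) + ee (f (w + 1 + 1)) * WW (G (w + 1))
          - ee (f u) * WW (G u)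
          = (∑ n ∈ Icc u w, ee (f n) + ee (f (w + 1)) * WW (G w) - ee (f u) * WW (G u))
            + ee (f (w + 1)) * (WW (G (w + 1)) - WW (G w)) := by
        rw [h2]
        linear_combination h1
      rw [h3]
      refine (norm_add_le _ _).trans ?_
      rw [norm_mul, norm_ee, one_mul]
      obtain ⟨a1, a2⟩ := hG1 w huw (by omega)
      obtain ⟨a3, a4⟩ := hG1 (w + 1) (by omega) hwv
      have hm := hmono w huw (by omega)
      rw [norm_WW_sub (by linarith) (by simp only [hG]; linarith) (by linarith)]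
      linarith
  have hk := key v huv le_rfl
  obtain ⟨a1, a2⟩ := hG1 u le_rfl huv
  obtain ⟨a3, a4⟩ := hG1 v huv le_rfl
  have b1 := norm_WW_le hΔ a1 a2
  have b2 := norm_WW_le hΔ a3 a4
  have b3 := (abs_le.mp (abs_hcot_le (G u))).2
  have b4 := (abs_le.mp (abs_hcot_le (G v))).1
  have e1 : ∑ n ∈ Icc u v, ee (f n) = (∑ n ∈ Icc u v, ee (f n) + ee (f (v + 1)) * WW (G v)
      - ee (f u) * WW (G u)) - ee (f (v + 1)) * WW (G v) + ee (f u) * WW (G u) := by ring
  rw [e1]
  refine (norm_add_le _ _).trans ?_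
  refine (add_le_add_left (norm_sub_le _ _) _).trans ?_
  rw [norm_mul, norm_mul, norm_ee, norm_ee, one_mul, one_mul]
  have e2 : 1 / Δ = 4 * (1 / (4 * Δ)) := by field_simp
  rw [e2]
  linarith

/-- iterated forward differences -/
def fd : ℕ → (ℕ → ℝ) → ℕ → ℝ
  | 0, f, n => f n
  | (k + 1), f, n => fd k f (n + 1) - fd k f n

lemma convex_eq_Icc {S : Finset ℕ} (hS : S.Nonempty)
    (hc : ∀ a ∈ S, ∀ b ∈ S, ∀ n, a ≤ n → n ≤ b → n ∈ S) : ∃ u v, u ≤ v ∧ S = Icc u v := by
  refine ⟨S.min' hS, S.max' hS, S.min'_le_max' hS, ?_⟩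
  ext n
  rw [Finset.mem_Icc]
  exact ⟨fun h => ⟨S.min'_le n h, S.le_max' n h⟩,
    fun h => hc _ (S.min'_mem hS) _ (S.max'_mem hS) n h.1 h.2⟩

lemma card_le_of_increment {g : ℕ → ℝ} {lam : ℝ} (hl : 0 < lam) {S : Finset ℕ}
    (hc : ∀ a ∈ S, ∀ b ∈ S, a ≤ b → g a + ((b - a : ℕ) : ℝ) * lam ≤ g b) {A L : ℝ} (hL : 0 ≤ L)
    (hA : ∀ n ∈ S, A ≤ g n ∧ g n ≤ A + L) : (S.card : ℝ) ≤ L / lam + 1 := by
  rcases S.eq_empty_or_nonempty with rfl | hS
  · simp; positivity
  have h1 : S ⊆ Icc (S.min' hS) (S.max' hS) := fun n h =>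
    Finset.mem_Icc.mpr ⟨S.min'_le n h, S.le_max' n h⟩
  have h2 := Finset.card_le_card h1
  rw [Nat.card_Icc] at h2
  have h3 := hc _ (S.min'_mem hS) _ (S.max'_mem hS) (S.min'_le_max' hS)
  have h4 := (hA _ (S.min'_mem hS)).1
  have h5 := (hA _ (S.max'_mem hS)).2
  have h6 : (S.card : ℝ) ≤ ((S.max' hS - S.min' hS : ℕ) : ℝ) + 1 := by
    have h7 : S.card ≤ (S.max' hS - S.min' hS) + 1 := by
      have := S.min'_le_max' hS
      omega
    exact_mod_cast h7
  have h8 : ((S.max' hS - S.min' hS : ℕ) : ℝ) ≤ L / lam := by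
    rw [le_div_iff₀ hl]
    linarith
  linarith

/-- the second difference test -/
theorem second_difference {f : ℕ → ℝ} {M : ℕ} {lam R : ℝ} (hl : 0 < lam)
    (hR : 1 ≤ R)
    (hf : ∀ n, n + 2 < M → lam ≤ fd 2 f n ∧ fd 2 f n ≤ R * lam) :
    ‖∑ n ∈ range M, ee (f n)‖ ≤ 1 + (R * lam * M + 2) * (3 / Real.sqrt lam + 1) := by
  have hsq : 0 < Real.sqrt lam := Real.sqrt_pos.mpr hl
  have hRl : 0 < R * lam := by positivity
  rcases Nat.lt_or_ge M 2 with hM | hM
  · have h1 : ‖∑ n ∈ range M, ee (f n)‖ ≤ M := by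
      calc _ ≤ ∑ n ∈ range M, ‖ee (f n)‖ := norm_sum_le _ _
        _ = M := by simp [norm_ee]
    have h2 : (M : ℝ) ≤ 1 := by
      have : M ≤ 1 := by omega
      exact_mod_cast this
    have h3 : 0 ≤ (R * lam * M + 2) * (3 / Real.sqrt lam + 1) := by positivity
    linarith
  set Δ : ℝ := Real.sqrt lam with hΔ
  have hΔ2 : Δ * Δ = lam := Real.mul_self_sqrt hl.le
  set g : ℕ → ℝ := fun n => f (n + 1) - f n with hg
  have hfd : ∀ n, fd 2 f n = g (n + 1) - g n := by
    intro n
    simp only [fd, hg]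
  have hinc : ∀ n, n + 2 < M → g n + lam ≤ g (n + 1) ∧ g (n + 1) ≤ g n + R * lam := by
    intro n hn
    have := hf n hn
    rw [hfd] at this
    constructor <;> linarith [this.1, this.2]
  have hgrow : ∀ a b, a ≤ b → b + 1 < M →
      g a + ((b - a : ℕ) : ℝ) * lam ≤ g b ∧ g b ≤ g a + ((b - a : ℕ) : ℝ) * (R * lam) := by
    intro a b hab
    induction b, hab using Nat.le_induction with
    | base => intro _; simp
    | succ b hab ih =>
      intro hb
      obtain ⟨h1, h2⟩ := ih (by omega)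
      obtain ⟨h3, h4⟩ := hinc b (by omega)
      have h5 : ((b + 1 - a : ℕ) : ℝ) = ((b - a : ℕ) : ℝ) + 1 := by
        have : b + 1 - a = (b - a) + 1 := by omega
        rw [this]; push_cast; ring
      rw [h5]
      constructor <;> nlinarith
  have hmon : ∀ a b, a ≤ b → b + 1 < M → g a ≤ g b := by
    intro a b hab hb
    have := (hgrow a b hab hb).1
    have h2 : (0 : ℝ) ≤ ((b - a : ℕ) : ℝ) * lam := by positivity
    linarith
  -- split off the last term
  obtain ⟨K, rfl⟩ : ∃ K, M = K + 1 := ⟨M - 1, by omega⟩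
  have hK : 1 ≤ K := by omega
  rw [Finset.sum_range_succ]
  refine (norm_add_le _ _).trans ?_
  rw [norm_ee]
  have hmain : ‖∑ n ∈ range K, ee (f n)‖ ≤ (R * lam * ((K : ℝ) + 1) + 2) * (3 / Δ + 1) := by
    set mm : ℕ → ℤ := fun n => ⌊g n + Δ⌋ with hmm
    set T : Finset ℤ := Icc (mm 0) (mm (K - 1)) with hT
    have hmaps : ∀ n ∈ range K, mm n ∈ T := by
      intro n hn
      rw [Finset.mem_range] at hn
      rw [hT, Finset.mem_Icc]
      exact ⟨Int.floor_le_floor (by linarith [hmon 0 n (Nat.zero_le _) (by omega)]),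
        Int.floor_le_floor (by linarith [hmon n (K - 1) (by omega) (by omega)])⟩
    have hTcard : (T.card : ℝ) ≤ R * lam * ((K : ℝ) + 1) + 2 := by
      have h1 : T.card = (mm (K - 1) + 1 - mm 0).toNat := by
        rw [hT, Int.card_Icc]
      have h2 : mm 0 ≤ mm (K - 1) := by
        have := hmaps 0 (Finset.mem_range.mpr (by omega))
        rw [hT, Finset.mem_Icc] at this
        exact this.2
      have h3 : (T.card : ℤ) = mm (K - 1) + 1 - mm 0 := by
        rw [h1, Int.toNat_of_nonneg (by omega)]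
      have h4 : (T.card : ℝ) = (mm (K - 1) : ℝ) + 1 - mm 0 := by exact_mod_cast h3
      have h5 : (mm (K - 1) : ℝ) ≤ g (K - 1) + Δ := Int.floor_le _
      have h6 : g 0 + Δ < mm 0 + 1 := Int.lt_floor_add_one _
      have h7 := (hgrow 0 (K - 1) (Nat.zero_le _) (by omega)).2
      have h8 : ((K - 1 - 0 : ℕ) : ℝ) ≤ (K : ℝ) + 1 := by
        have : K - 1 - 0 ≤ K + 1 := by omega
        exact_mod_cast this
      have h9 : ((K - 1 - 0 : ℕ) : ℝ) * (R * lam) ≤ ((K : ℝ) + 1) * (R * lam) :=
        mul_le_mul_of_nonneg_right h8 hRl.le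
      rw [h4]
      nlinarith
    rw [← Finset.sum_fiberwise_of_maps_to hmaps]
    refine (norm_sum_le _ _).trans ?_
    have hfib : ∀ m ∈ T, ‖∑ n ∈ range K with mm n = m, ee (f n)‖ ≤ 3 / Δ + 1 := by
      intro m _
      rw [← Finset.sum_filter_add_sum_filter_not ((range K).filter fun n => mm n = m)
        (fun n => g n < m + Δ)]
      refine (norm_add_le _ _).trans ?_
      have hfl : ∀ n, mm n = m → m - Δ ≤ g n ∧ g n < m + 1 - Δ := by
        intro n hn
        have h1 : (mm n : ℝ) ≤ g n + Δ := Int.floor_le _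
        have h2 : g n + Δ < mm n + 1 := Int.lt_floor_add_one _
        rw [hn] at h1 h2
        constructor <;> linarith
      -- near part
      have hnear : ‖∑ n ∈ ((range K).filter fun n => mm n = m).filter (fun n => g n < m + Δ),
          ee (f n)‖ ≤ 2 / Δ + 1 := by
        have h1 : ‖∑ n ∈ ((range K).filter fun n => mm n = m).filter (fun n => g n < m + Δ),
            ee (f n)‖ ≤ ((((range K).filter fun n => mm n = m).filter
              (fun n => g n < m + Δ)).card : ℝ) := by
          refine (norm_sum_le _ _).trans ?_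
          simp [norm_ee]
        have h2 := card_le_of_increment (g := g) hl
          (S := ((range K).filter fun n => mm n = m).filter (fun n => g n < m + Δ))
          (fun a _ b hb hab => by
            rw [Finset.mem_filter, Finset.mem_filter, Finset.mem_range] at hb
            exact (hgrow a b hab (by omega)).1) (A := m - Δ) (L := 2 * Δ) (by positivity)
          (fun n hn => by
            rw [Finset.mem_filter, Finset.mem_filter] at hn
            obtain ⟨h3, _⟩ := hfl n hn.1.2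
            exact ⟨h3, by linarith [hn.2]⟩)
        have h3 : 2 * Δ / lam = 2 / Δ := by
          rw [← hΔ2]
          field_simp
        rw [h3] at h2
        linarith
      -- far part
      have hfar : ‖∑ n ∈ ((range K).filter fun n => mm n = m).filter (fun n => ¬ g n < m + Δ),
          ee (f n)‖ ≤ 1 / Δ := by
        rcases (((range K).filter fun n => mm n = m).filter
          (fun n => ¬ g n < m + Δ)).eq_empty_or_nonempty with h0 | h0
        · rw [h0, Finset.sum_empty, norm_zero]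
          positivity
        · obtain ⟨u, v, huv, hS⟩ := convex_eq_Icc h0 (by
            intro a ha b hb n han hnb
            rw [Finset.mem_filter, Finset.mem_filter, Finset.mem_range] at ha hb ⊢
            have h1 := hmon a n han (by omega)
            have h2 := hmon n b hnb (by omega)
            refine ⟨⟨by omega, ?_⟩, ?_⟩
            · have h3 : mm a ≤ mm n := Int.floor_le_floor (by linarith)
              have h4 : mm n ≤ mm b := Int.floor_le_floor (by linarith)
              have h5 := ha.1.2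
              have h6 := hb.1.2
              omega
            · have h3 := ha.2
              rw [not_lt] at h3 ⊢
              linarith)
          rw [hS]
          have hmem : ∀ n, u ≤ n → n ≤ v → n < K ∧ mm n = m ∧ m + Δ ≤ g n := by
            intro n h1 h2
            have h3 : n ∈ Icc u v := Finset.mem_Icc.mpr ⟨h1, h2⟩
            rw [← hS, Finset.mem_filter, Finset.mem_filter, Finset.mem_range, not_lt] at h3
            exact ⟨h3.1.1, h3.1.2, h3.2⟩
          refine kusmin_landau huv hsq m (fun n h1 h2 => ?_) (fun n h1 h2 => ?_)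
          · obtain ⟨h3, h4, h5⟩ := hmem n h1 h2
            exact ⟨h5, (hfl n h4).2.le⟩
          · obtain ⟨h3, h4, h5⟩ := hmem (n + 1) (by omega) (by omega)
            exact hmon n (n + 1) (by omega) (by omega)
      have : 3 / Δ + 1 = (2 / Δ + 1) + 1 / Δ := by ring
      rw [this]
      exact add_le_add hnear hfar
    calc ∑ m ∈ T, ‖∑ n ∈ range K with mm n = m, ee (f n)‖ ≤ ∑ _m ∈ T, (3 / Δ + 1) :=
          Finset.sum_le_sum hfib
      _ = T.card * (3 / Δ + 1) := by rw [Finset.sum_const, nsmul_eq_mul]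
      _ ≤ _ := mul_le_mul_of_nonneg_right hTcard (by positivity)
  push_cast
  linarith

end Pool.Agent.Lib.MP_5b6025_nt
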