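import Pool.Agent.Lib.MP_5b6025_nt.Avg.KL
import Pool.Agent.Lib.MP_5b6025_nt.VdC

/-!
The `k`-th difference test, in a qualitative form.
-/

open Finset

namespace Pool.Agent.Lib.MP_5b6025_nt

/-- a finite form of van der Corput's inequality -/
theorem vdc_finite {u : ℕ → ℂ} (hu : ∀ n, ‖u n‖ ≤ 1) {M H : ℕ} {η : ℝ} (hη : 0 ≤ η)
    (h : ∀ l, 1 ≤ l → l < H → ‖∑ n ∈ range M, u (n + l) * starRingEnd ℂ (u n)‖ ≤ η * M)
    (hMH : 2 * (H : ℝ) ≤ η * M) :
    (H : ℝ) * ‖∑ n ∈ range M, u n‖ ≤ M * Real.sqrt (H + 2 * η * (H : ℝ) ^ 2) + 2 * H * H := by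
  have hconj : ∀ z : ℂ, ‖starRingEnd ℂ z‖ = ‖z‖ := fun z => RCLike.norm_conj z
  have huu : ∀ a b, ‖u a * starRingEnd ℂ (u b)‖ ≤ 1 := fun a b => by
    rw [norm_mul, hconj]
    exact mul_le_one₀ (hu _) (norm_nonneg _) (hu _)
  -- correlations
  have key : ∀ l l' : ℕ, l' < l → l < H →
      ‖∑ n ∈ range M, u (n + l) * starRingEnd ℂ (u (n + l'))‖ ≤ 2 * η * M := by
    intro l l' hll hlH
    have h1 := norm_sum_shift_sub_le (v := fun n => u (n + (l - l')) * starRingEnd ℂ (u n))
      (fun n => huu _ _) l' M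
    have h2 := h (l - l') (by omega) (by omega)
    have h3 : ∑ n ∈ range M, u (n + l) * starRingEnd ℂ (u (n + l'))
        = ∑ n ∈ range M, (fun n => u (n + (l - l')) * starRingEnd ℂ (u n)) (n + l') := by
      refine Finset.sum_congr rfl fun n _ => ?_
      have : n + l' + (l - l') = n + l := by omega
      simp only [this]
    rw [h3]
    have h4 := norm_add_le (∑ n ∈ range M, (fun n => u (n + (l - l')) * starRingEnd ℂ (u n)) (n + l')
      - ∑ n ∈ range M, (fun n => u (n + (l - l')) * starRingEnd ℂ (u n)) n)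
      (∑ n ∈ range M, (fun n => u (n + (l - l')) * starRingEnd ℂ (u n)) n)
    rw [sub_add_cancel] at h4
    have h5 : 2 * (l' : ℝ) ≤ 2 * H := by
      have : (l' : ℝ) ≤ H := by exact_mod_cast (by omega : l' ≤ H)
      linarith
    have h6 : ‖∑ n ∈ range M, (fun n => u (n + (l - l')) * starRingEnd ℂ (u n)) n‖ ≤ η * M := h2
    linarith
  have hcorr : ∀ l l' : ℕ, l ≠ l' → l < H → l' < H →
      ‖∑ n ∈ range M, u (n + l) * starRingEnd ℂ (u (n + l'))‖ ≤ 2 * η * M := by
    intro l l' hne hl hl'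
    rcases lt_or_gt_of_ne hne with hlt | hgt
    · have h1 := key l' l hlt hl'
      rw [← hconj, map_sum] at h1
      convert h1 using 3
      rw [map_mul, Complex.conj_conj, mul_comm]
    · exact key l l' hgt hl
  set V : ℕ → ℂ := fun n => ∑ l ∈ range H, u (n + l) with hV
  have hms : ∑ n ∈ range M, ‖V n‖ ^ 2 ≤ (H + 2 * η * (H : ℝ) ^ 2) * M := by
    have e1 : ((∑ n ∈ range M, ‖V n‖ ^ 2 : ℝ) : ℂ)
        = ∑ p ∈ range H ×ˢ range H,
          (∑ n ∈ range M, u (n + p.1) * starRingEnd ℂ (u (n + p.2))) := by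
      have e2 : ∀ n, ((‖V n‖ ^ 2 : ℝ) : ℂ)
          = ∑ p ∈ range H ×ˢ range H, u (n + p.1) * starRingEnd ℂ (u (n + p.2)) := by
        intro n
        rw [← Complex.normSq_eq_norm_sq, ← Complex.mul_conj, hV]
        simp only
        rw [map_sum, Finset.sum_mul_sum, Finset.sum_product]
      push_cast at e2 ⊢
      rw [Finset.sum_congr rfl (fun n _ => e2 n), Finset.sum_comm]
    have e3 : (∑ n ∈ range M, ‖V n‖ ^ 2)
        ≤ ‖∑ p ∈ range H ×ˢ range H,
          (∑ n ∈ range M, u (n + p.1) * starRingEnd ℂ (u (n + p.2)))‖ := by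
      rw [← e1, Complex.norm_real]
      exact le_abs_self _
    refine e3.trans ?_
    rw [← Finset.sum_filter_add_sum_filter_not (range H ×ˢ range H) (fun p => p.1 ≠ p.2)]
    refine (norm_add_le _ _).trans ?_
    have e4 : ‖∑ p ∈ (range H ×ˢ range H).filter (fun p => p.1 ≠ p.2),
          (∑ n ∈ range M, u (n + p.1) * starRingEnd ℂ (u (n + p.2)))‖
        ≤ (H : ℝ) ^ 2 * (2 * η * M) := by
      refine (norm_sum_le _ _).trans ?_
      calc _ ≤ ∑ _p ∈ (range H ×ˢ range H).filter (fun p => p.1 ≠ p.2), (2 * η * (M : ℝ)) := by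
            refine Finset.sum_le_sum fun p hp => ?_
            rw [Finset.mem_filter, Finset.mem_product, Finset.mem_range, Finset.mem_range] at hp
            exact hcorr _ _ hp.2 hp.1.1 hp.1.2
        _ = (((range H ×ˢ range H).filter (fun p => p.1 ≠ p.2)).card : ℝ) * (2 * η * M) := by
            rw [Finset.sum_const, nsmul_eq_mul]
        _ ≤ (H : ℝ) ^ 2 * (2 * η * M) := by
            apply mul_le_mul_of_nonneg_right _ (by positivity)
            have := Finset.card_filter_le (range H ×ˢ range H) (fun p => p.1 ≠ p.2)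
            rw [Finset.card_product, card_range] at this
            have h' : ((((range H ×ˢ range H).filter (fun p => p.1 ≠ p.2)).card : ℕ) : ℝ)
              ≤ ((H * H : ℕ) : ℝ) := by exact_mod_cast this
            refine h'.trans ?_
            push_cast
            nlinarith
    have e5 : ‖∑ p ∈ (range H ×ˢ range H).filter (fun p => ¬ p.1 ≠ p.2),
          (∑ n ∈ range M, u (n + p.1) * starRingEnd ℂ (u (n + p.2)))‖ ≤ H * M := by
      refine (norm_sum_le _ _).trans ?_
      have e6 : ((range H ×ˢ range H).filter (fun p => ¬ p.1 ≠ p.2)).card ≤ H := by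
        have : (range H ×ˢ range H).filter (fun p => ¬ p.1 ≠ p.2) ⊆ (range H).image fun l => (l, l) := by
          intro p hp
          rw [Finset.mem_filter, Finset.mem_product, not_not] at hp
          refine Finset.mem_image.mpr ⟨p.1, hp.1.1, ?_⟩
          exact Prod.ext rfl hp.2
        exact (Finset.card_le_card this).trans (Finset.card_image_le.trans (by simp))
      calc _ ≤ ∑ _p ∈ (range H ×ˢ range H).filter (fun p => ¬ p.1 ≠ p.2), (M : ℝ) := by
            refine Finset.sum_le_sum fun p _ => ?_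
            calc ‖∑ n ∈ range M, u (n + p.1) * starRingEnd ℂ (u (n + p.2))‖
                ≤ ∑ n ∈ range M, ‖u (n + p.1) * starRingEnd ℂ (u (n + p.2))‖ := norm_sum_le _ _
              _ ≤ ∑ _n ∈ range M, (1 : ℝ) := Finset.sum_le_sum fun n _ => huu _ _
              _ = M := by simp
        _ ≤ H * M := by
            rw [Finset.sum_const, nsmul_eq_mul]
            exact mul_le_mul_of_nonneg_right (by exact_mod_cast e6) (Nat.cast_nonneg _)
    nlinarith
  -- Cauchy-Schwarz
  have hcs : ‖∑ n ∈ range M, V n‖ ≤ M * Real.sqrt (H + 2 * η * (H : ℝ) ^ 2) := by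
    have e1 : ‖∑ n ∈ range M, V n‖ ^ 2 ≤ M * ∑ n ∈ range M, ‖V n‖ ^ 2 := by
      have e2 : ‖∑ n ∈ range M, V n‖ ≤ ∑ n ∈ range M, ‖V n‖ := norm_sum_le _ _
      have e3 : (∑ n ∈ range M, ‖V n‖) ^ 2 ≤ (range M).card * ∑ n ∈ range M, ‖V n‖ ^ 2 :=
        sq_sum_le_card_mul_sum_sq
      rw [card_range] at e3
      calc _ ≤ (∑ n ∈ range M, ‖V n‖) ^ 2 := by gcongr
        _ ≤ _ := e3
    have e5 : ‖∑ n ∈ range M, V n‖ ^ 2 ≤ (M * Real.sqrt (H + 2 * η * (H : ℝ) ^ 2)) ^ 2 := by
      rw [mul_pow, Real.sq_sqrt (by positivity)]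
      have h0 : (0 : ℝ) ≤ M := Nat.cast_nonneg _
      nlinarith
    exact (pow_le_pow_iff_left₀ (norm_nonneg _) (by positivity) two_ne_zero).mp e5
  -- compare with H copies of the sum
  have hcmp : ‖(H : ℂ) * ∑ n ∈ range M, u n - ∑ n ∈ range M, V n‖ ≤ 2 * H * H := by
    have e1 : (H : ℂ) * ∑ n ∈ range M, u n - ∑ n ∈ range M, V n
        = ∑ l ∈ range H, (∑ n ∈ range M, u n - ∑ n ∈ range M, u (n + l)) := by
      rw [Finset.sum_sub_distrib, Finset.sum_const, card_range, nsmul_eq_mul]
      congr 1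
      rw [hV]
      exact Finset.sum_comm
    rw [e1]
    calc _ ≤ ∑ l ∈ range H, ‖∑ n ∈ range M, u n - ∑ n ∈ range M, u (n + l)‖ := norm_sum_le _ _
      _ ≤ ∑ _l ∈ range H, (2 * (H : ℝ)) := by
          refine Finset.sum_le_sum fun l hl => ?_
          rw [norm_sub_rev]
          refine (norm_sum_shift_sub_le hu l M).trans ?_
          have : (l : ℝ) ≤ H := by exact_mod_cast (Finset.mem_range.mp hl).le
          linarith
      _ = 2 * H * H := by rw [Finset.sum_const, card_range, nsmul_eq_mul]; ring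
  have e1 : ‖(H : ℂ) * ∑ n ∈ range M, u n‖ ≤ ‖(H : ℂ) * ∑ n ∈ range M, u n - ∑ n ∈ range M, V n‖
      + ‖∑ n ∈ range M, V n‖ := by
    have := norm_add_le ((H : ℂ) * ∑ n ∈ range M, u n - ∑ n ∈ range M, V n) (∑ n ∈ range M, V n)
    rwa [sub_add_cancel] at this
  rw [norm_mul, Complex.norm_natCast] at e1
  linarith

lemma fd_shift_sub (k l : ℕ) (f : ℕ → ℝ) (n : ℕ) :
    fd k (fun n => f (n + l) - f n) n = fd k f (n + l) - fd k f n := by
  induction k generalizing n with
  | zero => rfl
  | succ k ih =>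
    simp only [fd]
    rw [ih, ih]
    have : n + 1 + l = n + l + 1 := by ring
    rw [this]
    ring

lemma fd_shift_sub' (k l : ℕ) (f : ℕ → ℝ) (n : ℕ) :
    fd k (fun n => f (n + l) - f n) n = ∑ j ∈ range l, fd (k + 1) f (n + j) := by
  rw [fd_shift_sub]
  induction l with
  | zero => simp
  | succ l ih =>
    rw [Finset.sum_range_succ, ← ih]
    simp only [fd]
    have : n + (l + 1) = n + l + 1 := by ring
    rw [this]
    ring

/-- the `k`-th difference test -/
theorem diff_test (k : ℕ) (hk : 2 ≤ k) : ∀ R : ℝ, 1 ≤ R → ∀ η : ℝ, 0 < η → ∃ θ : ℝ, 0 < θ ∧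
    ∀ (M : ℕ) (f : ℕ → ℝ) (lam : ℝ),
      (∀ n, n + k < M → lam ≤ fd k f n ∧ fd k f n ≤ R * lam) →
      θ⁻¹ ≤ lam * (M : ℝ) ^ 2 → lam ≤ θ → ‖∑ n ∈ range M, ee (f n)‖ ≤ η * M := by
  induction k, hk using Nat.le_induction with
  | base =>
    intro R hR η hη
    set s : ℝ := min 1 (η / (9 + 4 * R)) with hs
    have hs0 : 0 < s := lt_min one_pos (by positivity)
    have hs1 : s ≤ 1 := min_le_left _ _
    have hs2 : (9 + 4 * R) * s ≤ η := by
      have h1 : s ≤ η / (9 + 4 * R) := min_le_right _ _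
      rw [le_div_iff₀ (by positivity)] at h1
      linarith
    refine ⟨s ^ 2, by positivity, ?_⟩
    intro M f lam hf hM hlam
    have hM0 : (0 : ℝ) ≤ M := Nat.cast_nonneg _
    have hl : 0 < lam := by
      by_contra hcon
      have h1 : lam * (M : ℝ) ^ 2 ≤ 0 := mul_nonpos_of_nonpos_of_nonneg (not_lt.mp hcon)
        (by positivity)
      have h2 : (0 : ℝ) < (s ^ 2)⁻¹ := by positivity
      linarith
    have h1 := second_difference hl hR hf
    set q : ℝ := Real.sqrt lam with hq
    have hq0 : 0 < q := Real.sqrt_pos.mpr hl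
    have hqq : q * q = lam := Real.mul_self_sqrt hl.le
    have hqs : q ≤ s := by
      rw [hq]
      exact Real.sqrt_le_iff.mpr ⟨hs0.le, hlam⟩
    have hqM : 1 ≤ q * s * M := by
      have h2 : 1 ≤ (q * s * M) ^ 2 := by
        have h3 : (q * s * M) ^ 2 = s ^ 2 * (lam * (M : ℝ) ^ 2) := by
          rw [← hqq]; ring
        rw [h3]
        calc (1 : ℝ) = s ^ 2 * (s ^ 2)⁻¹ := (mul_inv_cancel₀ (by positivity)).symm
          _ ≤ _ := mul_le_mul_of_nonneg_left hM (by positivity)
      exact (one_le_sq_iff₀ (by positivity)).mp h2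
    have h3 : 1 / q ≤ s * M := by
      rw [div_le_iff₀ hq0]
      linarith
    have h4 : 1 ≤ 1 / q := by
      rw [le_div_iff₀ hq0]; linarith
    have h5 : R * lam * M * (1 / q) = R * q * M := by
      rw [← hqq]; field_simp
    have h6 : 3 / q + 1 ≤ 4 * (1 / q) := by
      have : 3 / q = 3 * (1 / q) := by ring
      rw [this]; linarith
    have h7 : (R * lam * M + 2) * (3 / q + 1) ≤ (R * lam * M + 2) * (4 * (1 / q)) :=
      mul_le_mul_of_nonneg_left h6 (by positivity)
    have h8 : (R * lam * M + 2) * (4 * (1 / q)) = 4 * (R * q * M) + 8 * (1 / q) := by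
      rw [← h5]; ring
    have h9 : R * q * M ≤ R * s * M := by
      apply mul_le_mul_of_nonneg_right _ hM0
      exact mul_le_mul_of_nonneg_left hqs (by linarith)
    have h10 : (9 + 4 * R) * s * M ≤ η * M := mul_le_mul_of_nonneg_right hs2 hM0
    calc ‖∑ n ∈ range M, ee (f n)‖ ≤ 1 + (R * lam * M + 2) * (3 / q + 1) := h1
      _ ≤ s * M + (4 * (R * s * M) + 8 * (s * M)) := by linarith
      _ = (9 + 4 * R) * s * M := by ring
      _ ≤ η * M := h10
  | succ k hk ih =>
    intro R hR η hη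
    obtain ⟨H, hH1, hH2⟩ : ∃ H : ℕ, 1 ≤ H ∧ 16 / η ^ 2 ≤ H := by
      obtain ⟨H, hH⟩ := exists_nat_ge (16 / η ^ 2)
      exact ⟨H + 1, by omega, by push_cast; linarith⟩
    have hHpos : (0 : ℝ) < H := by exact_mod_cast hH1
    set η' : ℝ := η ^ 2 / 32 with hη'
    have hη'0 : 0 < η' := by positivity
    obtain ⟨θ', hθ'0, hθ'⟩ := ih R hR η' hη'0
    set θ : ℝ := min (min (θ' / 4) (θ' / H)) (min (1 / (2 * H)) (min (η / (4 * H)) (η' / (2 * H))))
      with hθ
    have hθ0 : 0 < θ := by
      rw [hθ]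
      repeat' apply lt_min
      all_goals positivity
    have t1 : θ ≤ θ' / 4 := (min_le_left _ _).trans (min_le_left _ _)
    have t2 : θ ≤ θ' / H := (min_le_left _ _).trans (min_le_right _ _)
    have t3 : θ ≤ 1 / (2 * H) := (min_le_right _ _).trans (min_le_left _ _)
    have t4 : θ ≤ η / (4 * H) :=
      (min_le_right _ _).trans ((min_le_right _ _).trans (min_le_left _ _))
    have t5 : θ ≤ η' / (2 * H) :=
      (min_le_right _ _).trans ((min_le_right _ _).trans (min_le_right _ _))
    refine ⟨θ, hθ0, ?_⟩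
    intro M f lam hf hM hlam
    have hM0 : (0 : ℝ) ≤ M := Nat.cast_nonneg _
    have hl : 0 < lam := by
      by_contra hcon
      have h1 : lam * (M : ℝ) ^ 2 ≤ 0 := mul_nonpos_of_nonpos_of_nonneg (not_lt.mp hcon)
        (by positivity)
      have h2 : (0 : ℝ) < θ⁻¹ := by positivity
      linarith
    have hMθ : 1 ≤ θ * M := by
      have h1 : 1 ≤ (θ * M) ^ 2 := by
        have h2 : θ⁻¹ ≤ θ * (M : ℝ) ^ 2 :=
          hM.trans (mul_le_mul_of_nonneg_right hlam (by positivity))
        calc (1 : ℝ) = θ * θ⁻¹ := (mul_inv_cancel₀ hθ0.ne').symm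
          _ ≤ θ * (θ * (M : ℝ) ^ 2) := mul_le_mul_of_nonneg_left h2 hθ0.le
          _ = (θ * M) ^ 2 := by ring
      exact (one_le_sq_iff₀ (by positivity)).mp h1
    have hbig : ∀ c : ℝ, θ ≤ c / (2 * H) → 2 * H ≤ c * M := by
      intro c hc
      have h1 : 1 ≤ c / (2 * H) * M := hMθ.trans (mul_le_mul_of_nonneg_right hc hM0)
      have h2 : c / (2 * H) * M = c * M / (2 * H) := by ring
      rw [h2, le_div_iff₀ (by positivity)] at h1
      linarith
    have hM2 : 2 * (H : ℝ) ≤ M := by
      have := hbig 1 t3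
      linarith
    have hMη : 4 * (H : ℝ) ≤ η * M := by
      have := hbig (η / 2) (by
        refine t4.trans (le_of_eq ?_)
        field_simp
        ring)
      linarith
    have hMη' : 2 * (H : ℝ) ≤ η' * M := hbig η' t5
    have hM2' : 2 * H ≤ M := by exact_mod_cast hM2
    -- apply the inequality
    set u : ℕ → ℂ := fun n => if n < M then ee (f n) else 0 with hu
    have hu1 : ∀ n, ‖u n‖ ≤ 1 := by
      intro n
      simp only [hu]
      split_ifs
      · rw [norm_ee]
      · rw [norm_zero]; exact zero_le_one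
    have hcor : ∀ l, 1 ≤ l → l < H →
        ‖∑ n ∈ range M, u (n + l) * starRingEnd ℂ (u n)‖ ≤ η' * M := by
      intro l hl1 hlH
      have e1 : ∑ n ∈ range M, u (n + l) * starRingEnd ℂ (u n)
          = ∑ n ∈ range (M - l), ee (f (n + l) - f n) := by
        have e2 : range (M - l) ⊆ range M := Finset.range_subset_range.mpr (Nat.sub_le _ _)
        rw [← Finset.sum_subset e2 (f := fun n => u (n + l) * starRingEnd ℂ (u n))]
        · refine Finset.sum_congr rfl fun n hn => ?_
          rw [Finset.mem_range] at hn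
          simp only [hu]
          rw [if_pos (by omega), if_pos (by omega), ← ee_neg, ← ee_add, sub_eq_add_neg]
        · intro n _ hn
          rw [Finset.mem_range, not_lt] at hn
          simp only [hu]
          rw [if_neg (by omega), zero_mul]
      rw [e1]
      have hll : (1 : ℝ) ≤ l := by exact_mod_cast hl1
      have hlH' : (l : ℝ) ≤ H := by exact_mod_cast hlH.le
      have hMl : (M : ℝ) ≤ 2 * ((M - l : ℕ) : ℝ) := by
        have : M ≤ 2 * (M - l) := by omega
        exact_mod_cast this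
      have h1 := hθ' (M - l) (fun n => f (n + l) - f n) (l * lam) (by
        intro n hn
        rw [fd_shift_sub']
        have h2 : ∀ j ∈ range l, lam ≤ fd (k + 1) f (n + j) ∧ fd (k + 1) f (n + j) ≤ R * lam := by
          intro j hj
          rw [Finset.mem_range] at hj
          exact hf (n + j) (by omega)
        constructor
        · have := Finset.card_nsmul_le_sum (range l) (fun j => fd (k + 1) f (n + j)) lam
            (fun j hj => (h2 j hj).1)
          rw [card_range, nsmul_eq_mul] at this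
          exact this
        · have := Finset.sum_le_card_nsmul (range l) (fun j => fd (k + 1) f (n + j)) (R * lam)
            (fun j hj => (h2 j hj).2)
          rw [card_range, nsmul_eq_mul] at this
          linarith) (by
        -- lower bound
        have h3 : θ'⁻¹ ≤ θ⁻¹ / 4 := by
          rw [inv_eq_one_div, inv_eq_one_div, div_div, div_le_div_iff₀ hθ'0 (by positivity)]
          linarith
        have h4 : (M : ℝ) ^ 2 ≤ 4 * ((M - l : ℕ) : ℝ) ^ 2 := by nlinarith
        have h5 : lam * (M : ℝ) ^ 2 ≤ lam * (4 * ((M - l : ℕ) : ℝ) ^ 2) :=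
          mul_le_mul_of_nonneg_left h4 hl.le
        have h6 : lam * ((M - l : ℕ) : ℝ) ^ 2 ≤ l * lam * ((M - l : ℕ) : ℝ) ^ 2 := by
          apply mul_le_mul_of_nonneg_right _ (by positivity)
          nlinarith
        linarith) (by
        have h3 : (l : ℝ) * lam ≤ H * θ := mul_le_mul hlH' hlam hl.le (by positivity)
        have h4 : (H : ℝ) * θ ≤ H * (θ' / H) := mul_le_mul_of_nonneg_left t2 hHpos.le
        have h5 : (H : ℝ) * (θ' / H) = θ' := by field_simp
        linarith)
      refine h1.trans ?_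
      apply mul_le_mul_of_nonneg_left _ hη'0.le
      have : M - l ≤ M := Nat.sub_le _ _
      exact_mod_cast this
    have h1 := vdc_finite hu1 hη'0.le hcor hMη'
    have h2 : ∑ n ∈ range M, u n = ∑ n ∈ range M, ee (f n) := by
      refine Finset.sum_congr rfl fun n hn => ?_
      rw [Finset.mem_range] at hn
      simp only [hu]
      rw [if_pos hn]
    rw [h2] at h1
    have h3 : Real.sqrt (H + 2 * η' * (H : ℝ) ^ 2) ≤ H * (η / 2) := by
      rw [Real.sqrt_le_iff]
      refine ⟨by positivity, ?_⟩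
      have h4 : 16 ≤ H * η ^ 2 := by
        rw [div_le_iff₀ (by positivity)] at hH2
        exact hH2
      have h5 : (H : ℝ) ≤ (H : ℝ) ^ 2 * η ^ 2 / 16 := by
        rw [le_div_iff₀ (by norm_num)]
        nlinarith
      have h6 : 2 * η' * (H : ℝ) ^ 2 = (H : ℝ) ^ 2 * η ^ 2 / 16 := by rw [hη']; ring
      rw [h6]
      nlinarith [sq_nonneg ((H : ℝ) * η)]
    have h4 : (H : ℝ) * ‖∑ n ∈ range M, ee (f n)‖ ≤ H * (η * M) := by
      have h5 : (M : ℝ) * Real.sqrt (H + 2 * η' * (H : ℝ) ^ 2) ≤ M * (H * (η / 2)) :=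
        mul_le_mul_of_nonneg_left h3 hM0
      have h6 : 2 * (H : ℝ) * H ≤ H * (η / 2 * M) := by nlinarith
      nlinarith
    exact le_of_mul_le_mul_left h4 hHpos

end Pool.Agent.Lib.MP_5b6025_nt
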